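import Pool.Graph.R_pool_sql_team_seeded_3997aac3.Q4.Lip.Up

/-!
# The Sobolev gap `s(V, w_t)` is not bounded by any function of `s(V, w)` and `t`

For `G = SL(2, ℝ) × SL(2, ℝ)` there is one Harish-Chandra module `V` such that, for every `t₀ > 0`
(arbitrarily small) and every `C`, some weight `w` has `s(V, w) ≤ 4` and `s(V, w_t) > C` for all
`t ≥ t₀`.  The module and the weights are those of the library result
`MP_d7c545_al.NotLipschitz`, where only `t = 1 / 2` is used.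
-/

open scoped NNReal ENNReal
open Q4.HC Q4.Lip

namespace Pool.Agent.Results.MP_d7c545_al.NoModulus

/-- the elementary inequality -/
theorem elem {x y A s : ℝ} {b b' : ℕ} (hx : 1 ≤ x) (hy : 1 ≤ y) (hs0 : 0 ≤ s) (hs1 : s ≤ 1)
    (hA : y ^ s ≤ A) (hb : (b' : ℝ) ≤ b * s) :
    x ^ (2 * b') * y ≤ max (x ^ (2 * b)) y * A := by
  have hx0 : 0 < x := by linarith
  have hy0 : 0 < y := by linarith
  set X : ℝ := x ^ (2 * b) with hX
  have hX1 : 1 ≤ X := one_le_pow₀ hx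
  have hX0 : 0 < X := by linarith
  -- `x ^ (2 b') ≤ X ^ s`
  have h1 : x ^ (2 * b') ≤ X ^ s := by
    rw [hX, ← Real.rpow_natCast x (2 * b'), ← Real.rpow_natCast x (2 * b), ← Real.rpow_mul hx0.le]
    refine Real.rpow_le_rpow_of_exponent_le hx ?_
    push_cast
    nlinarith
  have hA0 : 0 ≤ A := (Real.rpow_nonneg hy0.le s).trans hA
  rcases le_total X y with h | h
  · rw [max_eq_right h]
    have h2 : X ^ s ≤ y ^ s := Real.rpow_le_rpow hX0.le h hs0
    calc x ^ (2 * b') * y ≤ A * y := by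
          refine mul_le_mul_of_nonneg_right ?_ hy0.le
          exact h1.trans (h2.trans hA)
      _ = y * A := mul_comm _ _
  · rw [max_eq_left h]
    have h2 : y = y ^ (1 - s) * y ^ s := by
      rw [← Real.rpow_add hy0]
      simp
    have h3 : y ^ (1 - s) ≤ X ^ (1 - s) := Real.rpow_le_rpow hy0.le h (by linarith)
    have h4 : X = X ^ s * X ^ (1 - s) := by
      rw [← Real.rpow_add hX0]
      simp
    calc x ^ (2 * b') * y = x ^ (2 * b') * (y ^ (1 - s) * y ^ s) := by rw [← h2]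
      _ ≤ X ^ s * (X ^ (1 - s) * A) := by
          gcongr
      _ = X ^ s * X ^ (1 - s) * A := by ring
      _ = X * A := by rw [← h4]

/-- a lower bound for the powers of the norm of the adjoint representation -/
theorem ad_lower (g : G 2) {t s : ℝ} (hs0 : 0 ≤ s) (hst : s ≤ 2 * t) :
    sz (g 1) ^ s ≤ (2 * adNorm g) ^ t := by
  have h1 := sz_sq_le g 1
  have h2 := one_le_sz (g 1)
  have h3 : 0 ≤ sz (g 1) := by linarith
  calc sz (g 1) ^ s ≤ sz (g 1) ^ (2 * t) := Real.rpow_le_rpow_of_exponent_le h2 hst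
    _ = (sz (g 1) ^ (2 : ℕ)) ^ t := by
        rw [← Real.rpow_natCast (sz (g 1)) 2, ← Real.rpow_mul h3]
        norm_num
    _ ≤ (2 * adNorm g) ^ t := Real.rpow_le_rpow (by positivity) h1 (by linarith)

/-- the weight `(w_b)_t` dominates the product of the growth functions with exponent `b'`, as soon
as `b' ≤ b s`, `s ≤ 1` and `s ≤ 2 t` -/
theorem prod_le_t {b b' : ℕ} {s : ℝ} {t : ℝ≥0} (hs0 : 0 ≤ s) (hs1 : s ≤ 1) (hst : s ≤ 2 * t)
    (hb : (b' : ℝ) ≤ b * s) (g : G 2) :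
    sz (g 0) ^ (2 * b') * sz (g 1) ≤ (2 : ℝ) ^ (t : ℝ) * wt (wb b) t g := by
  have h0 : 0 ≤ adNorm g := by
    have h1 := sz_sq_le g 1
    have h2 := sz_pos (g 1)
    nlinarith
  have h1 := elem (b := b) (b' := b') (one_le_sz (g 0)) (one_le_sz (g 1)) hs0 hs1
    (ad_lower g hs0 hst) hb
  refine h1.trans (le_of_eq ?_)
  rw [wt, wb, Real.mul_rpow (by norm_num) h0]
  ring

/-- the lower bound for the gap of `(w_b)_t` -/
theorem gap_low_t {c : ℝ} (hc : 0 < c) {b b' : ℕ} {s : ℝ} {t : ℝ≥0} (hs0 : 0 ≤ s) (hs1 : s ≤ 1)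
    (hst : s ≤ 2 * t) (hb : (b' : ℝ) ≤ b * s) : (b' : ℝ≥0∞) ≤ gap DD c (wt (wb b) t) := by
  have h2t : (0 : ℝ) < (2 : ℝ) ^ (t : ℝ) := by positivity
  have hn0 : InNorm DD (wt (wb b) t) (pn 0) := by
    refine inNorm_of 0 h2t (fun g => prod_le_t (b' := 0) (s := s) hs0 hs1 hst ?_ g)
    have : (0 : ℝ) ≤ b := Nat.cast_nonneg b
    push_cast
    positivity
  have hnb : InNorm DD (wt (wb b) t) (pn b') :=
    inNorm_of b' h2t (fun g => prod_le_t hs0 hs1 hst hb g)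
  refine (low hc b').trans ?_
  refine le_trans (le_max_left _ (dArrow DD c (pn b') (pn 0))) ?_
  exact le_iSup₂_of_le (pn 0) hn0 (le_iSup₂_of_le (pn b') hnb le_rfl)

/-- For the real reductive group `G = SL(2, ℝ) × SL(2, ℝ)` there is one Harish-Chandra module `V`
such that, for every `t₀ > 0` and every `C`, there is a weight `w` with `Norm(V, w) ≠ ∅`,
`s(V, w) ≤ 4` and `s(V, w_t) > C` for all `t ≥ t₀`.  (`c > 0` is the normalisation of the
invariant form.) -/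
theorem result : ∃ (V : Type) (_ : AddCommGroup V) (_ : Module ℂ V) (D : Ops 2 V),
    D.IsHarishChandra ∧ ∀ c : ℝ, 0 < c → ∀ t₀ : ℝ≥0, 0 < t₀ → ∀ C : ℝ≥0,
      ∃ w : G 2 → ℝ, IsWeightFunction w ∧ (∃ p, InNorm D w p) ∧ gap D c w ≤ 4 ∧
        ∀ t : ℝ≥0, t₀ ≤ t → (C : ℝ≥0∞) < gap D c (wt w t) := by
  refine ⟨VW, inferInstance, inferInstance, DD, harishChandra, fun c hc t₀ ht₀ C => ?_⟩
  set s : ℝ := min (2 * (t₀ : ℝ)) 1 with hs
  have ht₀' : (0 : ℝ) < t₀ := by exact_mod_cast ht₀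
  have hs0 : 0 < s := lt_min (by linarith) one_pos
  have hs1 : s ≤ 1 := min_le_right _ _
  obtain ⟨b', hb'⟩ := exists_nat_gt (C : ℝ)
  obtain ⟨b, hb⟩ := exists_nat_gt ((b' : ℝ) / s)
  have hbs : (b' : ℝ) ≤ b * s := by
    rw [div_lt_iff₀ hs0] at hb
    exact hb.le
  refine ⟨wb b, wb_weight b, ⟨pn 0, inNorm_of 0 one_pos (std_le' b)⟩, gap_up hc b,
    fun t ht => ?_⟩
  have hst : s ≤ 2 * (t : ℝ) := by
    have h1 : (t₀ : ℝ) ≤ t := by exact_mod_cast ht
    exact (min_le_left _ _).trans (by linarith)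
  calc (C : ℝ≥0∞) < ((b' : ℝ≥0) : ℝ≥0∞) := by
        rw [ENNReal.coe_lt_coe, ← NNReal.coe_lt_coe]
        push_cast
        exact hb'
    _ = (b' : ℝ≥0∞) := by push_cast; rfl
    _ ≤ gap DD c (wt (wb b) t) := gap_low_t hc hs0.le hs1 hst hbs

end Pool.Agent.Results.MP_d7c545_al.NoModulus
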